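import Pool.Agent.H24.CL.Targets
import Pool.Agent.H49.CLV.BO

/-!
Row LA of clv_modules (helper24's board, MP_e21eee_nt): counting on lines for a chain.
-/

set_option autoImplicit false

open Finset
open Pool.Agent.H24.CL

namespace Pool.Agent.H36.CLV

theorem gram (hEX : T_EX) (hTO : T_TO) {k q : ℕ} (hk : 1 ≤ k) (hq : 2 ≤ q) (y y' : X k)
    (h : y - y' ∈ Ln k q) : ‖∑ b ∈ range q, e (P y b) * (starRingEnd ℂ) (e (P y' b))‖ =
      if y = y' then (q : ℝ) else 0 := by
  obtain ⟨h1, h2, h3, h4, -, h6, h7, -, -⟩ := hEX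
  have hterm : ∀ b : ℕ, e (P y b) * (starRingEnd ℂ) (e (P y' b)) = e (P (y - y') b) := by
    intro b
    have e1 : P y b = P (y - y') b + P y' b := by
      rw [← h7]
      congr 1
      abel
    have e2 : e (P y' b) * (starRingEnd ℂ) (e (P y' b)) = 1 := by
      rw [← h4, ← h2, add_neg_cancel, h3]
    rw [e1, h2, mul_assoc, e2, mul_one]
  by_cases hy : y = y'
  · rw [if_pos hy]
    have e1 : ∀ b ∈ range q, e (P y b) * (starRingEnd ℂ) (e (P y' b)) = 1 := by
      intro b _
      rw [hterm b, hy, sub_self]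
      have : P (0 : X k) b = 0 := by
        simp [P]
      rw [this, h3]
    rw [sum_congr rfl e1, sum_const, card_range, nsmul_eq_mul, mul_one]
    simp
  · rw [if_neg hy]
    obtain ⟨g1, g2⟩ := h
    have hH : y - y' ∈ H k q 1 := by
      rw [H, AddMonoidHom.mem_ker, nsmulAddMonoidHom_apply, pow_one]
      exact g1
    obtain ⟨n, hn⟩ := ((hTO k q (by omega)).1 1 (y - y')).mp hH
    let i₀ : Fin k := ⟨0, hk⟩
    have e1 : ∀ b : ℕ, P (y - y') b =
        ((((b : ℝ) * ((n i₀ : ℤ) : ℝ) / (q : ℝ) : ℝ)) : UnitAddCircle) := by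
      intro b
      rw [P, Finset.sum_eq_single i₀]
      · rw [hn, tor]
        have e3 : i₀.val + 1 = 1 := rfl
        rw [e3, pow_one, pow_one, ← AddCircle.coe_nsmul, nsmul_eq_mul, mul_div_assoc]
      · intro i _ hi
        have : i.val ≠ 0 := fun h0 => hi (Fin.ext h0)
        rw [g2 i this, smul_zero]
      · intro h0
        exact absurd (mem_univ _) h0
    have e2 : ¬ ((q : ℤ) ∣ n i₀) := by
      intro hd
      apply hy
      rw [← sub_eq_zero]
      funext i
      by_cases hi : i.val = 0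
      · have : i = i₀ := Fin.ext hi
        rw [this, hn, tor, pow_one]
        obtain ⟨c, hc⟩ := hd
        have hq0 : (q : ℝ) ≠ 0 := by
          have : 0 < q := by omega
          exact_mod_cast this.ne'
        have e4 : (((n i₀ : ℤ) : ℝ) / (q : ℝ)) = (c : ℝ) := by
          rw [hc]
          push_cast
          field_simp
        rw [e4, Pi.zero_apply]
        rw [AddCircle.coe_eq_zero_iff]
        exact ⟨c, by simp⟩
      · rw [Pi.zero_apply]
        exact g2 i hi
    rw [sum_congr rfl fun b _ => (hterm b).trans (by rw [e1 b]), h6 q (n i₀) (by omega),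
      if_neg e2, norm_zero]

theorem phi_eq (hTO : T_TO) {k q : ℕ} (hq : 2 ≤ q) (b : ℕ) (y y' : X k)
    (h : y - y' ∈ Ln k q) : phi q b y = phi q b y' := by
  have hH : y - y' ∈ H k q 1 := by
    rw [H, AddMonoidHom.mem_ker, nsmulAddMonoidHom_apply, pow_one]
    exact h.1
  have h1 := (hTO k q (by omega)).2.2.2.2.2 b (y - y') hH
  rw [map_sub, sub_eq_zero] at h1
  exact h1

theorem pf_LA (hEX : T_EX) (hTO : T_TO) : T_LA := by
  classical
  intro k q m L T ρ t₀ W A n hk hq hL hT hρ ht hC j hj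
  have hq0 : (0 : ℝ) < q := by
    have : 0 < q := by omega
    exact_mod_cast this
  have hAj : 0 < A j := lt_of_lt_of_le (by positivity) (hC.A_lo j hj.le)
  have hAj1 : 0 < A (j + 1) := lt_of_lt_of_le (by positivity) (hC.A_lo (j + 1) hj)
  have hnj : 0 < n j := lt_of_lt_of_le one_pos (hC.one_le j hj)
  have hT0 : 0 < T := lt_of_lt_of_le one_pos hT
  have hρ0 : 0 < ρ := lt_of_lt_of_le one_pos hρ
  have hchild : ∀ w ∈ W j, ∀ b ∈ pos q (W (j + 1)) w,
      ‖u (q ^ (m - (j + 1)) * L) (phi q b w)‖ ≤ ρ * A (j + 1) := by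
    intro w _ b hb
    exact hC.hi (j + 1) hj _ (mem_filter.mp hb).2
  have hcnt : Cnt (Ln k q) (W j) (Gr q T ρ A n j) := by
    intro Y hY hYd
    have hG0 : 0 ≤ Gr q T ρ A n j := by
      rw [Gr]
      positivity
    rcases Y.eq_empty_or_nonempty with rfl | ⟨y₀, hy₀⟩
    · simpa using hG0
    let D : Finset ℕ := pos q (W (j + 1)) y₀
    have hpos : ∀ y ∈ Y, pos q (W (j + 1)) y = D := by
      intro y hy
      refine Finset.filter_congr fun b _ => ?_
      rw [phi_eq hTO hq b y y₀ (hYd y hy y₀ hy₀)]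
    let x : ℕ → ℂ := fun b => if b ∈ D then u (q ^ (m - (j + 1)) * L) (phi q b y₀) else 0
    have hDr : D ⊆ range q := filter_subset _ _
    have hBO := Pool.Agent.H49.CLV.pf_BO (X k) Y (range q) x (fun y b => e (P y b)) (q : ℝ)
      hq0.le (by
        intro w hw
        rw [sum_congr rfl fun w' hw' => gram hEX hTO hk hq w w' (hYd w hw w' hw')]
        rw [Finset.sum_ite_eq Y w, if_pos hw])
    have hx2 : ∑ b ∈ range q, ‖x b‖ ^ 2 ≤ (ρ * n j) * (ρ * A (j + 1)) ^ 2 := by
      have e1 : ∑ b ∈ range q, ‖x b‖ ^ 2 = ∑ b ∈ D, ‖x b‖ ^ 2 := by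
        symm
        refine Finset.sum_subset hDr fun b _ hb => ?_
        simp only [x, if_neg hb, norm_zero]
        norm_num
      rw [e1]
      calc ∑ b ∈ D, ‖x b‖ ^ 2 ≤ ∑ _b ∈ D, (ρ * A (j + 1)) ^ 2 := by
            refine sum_le_sum fun b hb => ?_
            refine pow_le_pow_left₀ (norm_nonneg _) ?_ 2
            simp only [x, if_pos hb]
            exact hchild y₀ (hY y₀ hy₀) b hb
        _ = (D.card : ℝ) * (ρ * A (j + 1)) ^ 2 := by rw [sum_const, nsmul_eq_mul]
        _ ≤ (ρ * n j) * (ρ * A (j + 1)) ^ 2 :=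
            mul_le_mul_of_nonneg_right (hC.card_hi j hj y₀ (hY y₀ hy₀)) (by positivity)
    have hlow : ∀ y ∈ Y, (q * A j / T) ^ 2 ≤ ‖∑ b ∈ range q, x b * e (P y b)‖ ^ 2 := by
      intro y hy
      have e1 : ∑ b ∈ range q, x b * e (P y b) =
          ∑ b ∈ pos q (W (j + 1)) y, e (P y b) * u (q ^ (m - (j + 1)) * L) (phi q b y) := by
        rw [hpos y hy]
        symm
        rw [← Finset.sum_subset hDr (f := fun b => x b * e (P y b)) fun b _ hb => by
          simp only [x, if_neg hb, zero_mul]]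
        refine sum_congr rfl fun b hb => ?_
        simp only [x, if_pos hb]
        rw [phi_eq hTO hq b y y₀ (hYd y hy y₀ hy₀), mul_comm]
      rw [e1]
      refine pow_le_pow_left₀ (by positivity) ?_ 2
      rw [div_le_iff₀ hT0]
      calc (q : ℝ) * A j ≤ q * ‖u (q ^ (m - j) * L) y‖ :=
            mul_le_mul_of_nonneg_left (hC.lo j hj.le y (hY y hy)) hq0.le
        _ ≤ _ := hC.carry j hj y (hY y hy)
        _ = _ := mul_comm _ _
    have hsum : (Y.card : ℝ) * (q * A j / T) ^ 2 ≤ q * ((ρ * n j) * (ρ * A (j + 1)) ^ 2) := by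
      calc (Y.card : ℝ) * (q * A j / T) ^ 2 = ∑ _y ∈ Y, (q * A j / T) ^ 2 := by
            rw [sum_const, nsmul_eq_mul]
        _ ≤ ∑ y ∈ Y, ‖∑ b ∈ range q, x b * e (P y b)‖ ^ 2 := sum_le_sum hlow
        _ ≤ q * ∑ b ∈ range q, ‖x b‖ ^ 2 := hBO
        _ ≤ _ := mul_le_mul_of_nonneg_left hx2 hq0.le
    have hfin : Gr q T ρ A n j = q * ((ρ * n j) * (ρ * A (j + 1)) ^ 2) / (q * A j / T) ^ 2 := by
      rw [Gr]
      field_simp
    rw [hfin, le_div_iff₀ (by positivity)]
    exact hsum
  refine ⟨hcnt, ?_, ?_⟩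
  · intro w hw
    exact ⟨pos q (W (j + 1)) w, filter_subset _ _, fun b hb => (mem_filter.mp hb).2,
      hC.card_lo j hj w hw⟩
  · rintro ⟨w, hw⟩
    constructor
    · have h1 := hcnt {w} (by
        intro y hy
        rw [mem_singleton.mp hy]
        exact hw) (by
        intro y hy y' hy'
        rw [mem_singleton.mp hy, mem_singleton.mp hy', sub_self]
        exact zero_mem _)
      simpa using h1
    · have h1 : (q : ℝ) * A j ≤ T * ((ρ * n j) * (ρ * A (j + 1))) := by
        calc (q : ℝ) * A j ≤ q * ‖u (q ^ (m - j) * L) w‖ :=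
              mul_le_mul_of_nonneg_left (hC.lo j hj.le w hw) hq0.le
          _ ≤ T * ‖∑ b ∈ pos q (W (j + 1)) w, e (P w b) *
                u (q ^ (m - (j + 1)) * L) (phi q b w)‖ := hC.carry j hj w hw
          _ ≤ T * ((ρ * n j) * (ρ * A (j + 1))) := by
              refine mul_le_mul_of_nonneg_left ?_ hT0.le
              calc ‖∑ b ∈ pos q (W (j + 1)) w, e (P w b) *
                    u (q ^ (m - (j + 1)) * L) (phi q b w)‖
                  ≤ ∑ b ∈ pos q (W (j + 1)) w, ‖e (P w b) *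
                    u (q ^ (m - (j + 1)) * L) (phi q b w)‖ := norm_sum_le _ _
                _ ≤ ∑ _b ∈ pos q (W (j + 1)) w, ρ * A (j + 1) := by
                    refine sum_le_sum fun b hb => ?_
                    rw [norm_mul, hEX.1, one_mul]
                    exact hchild w hw b hb
                _ = ((pos q (W (j + 1)) w).card : ℝ) * (ρ * A (j + 1)) := by
                    rw [sum_const, nsmul_eq_mul]
                _ ≤ (ρ * n j) * (ρ * A (j + 1)) :=
                    mul_le_mul_of_nonneg_right (hC.card_hi j hj w hw) (by positivity)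
      have h2 : ((q : ℝ) * A j) ^ 2 ≤ (T * ((ρ * n j) * (ρ * A (j + 1)))) ^ 2 :=
        pow_le_pow_left₀ (by positivity) h1 2
      have h3 : ρ * n j * Gr q T ρ A n j =
          (T * ((ρ * n j) * (ρ * A (j + 1)))) ^ 2 / (q * A j ^ 2) := by
        rw [Gr]
        field_simp
      rw [h3, le_div_iff₀ (by positivity)]
      calc (q : ℝ) * (q * A j ^ 2) = ((q : ℝ) * A j) ^ 2 := by ring
        _ ≤ _ := h2

end Pool.Agent.H36.CLV
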