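import Pool.Agent.H24.CL.Targets

/-!
Row O0 of clv_modules (helper24's board, MP_e21eee_nt): the number of alive points of an orbit.
-/

set_option autoImplicit false

open Finset
open Pool.Agent.H24.CL

namespace Pool.Agent.H36.CLV

theorem Zv_inj {q : ℕ} [Fact q.Prime] (hq : 3 < q) (w w' : V3 q) (b c d : ZMod q)
    (hbc : b ≠ c) (hbd : b ≠ d) (hcd : c ≠ d) (h1 : Zv w b = Zv w' b) (h2 : Zv w c = Zv w' c)
    (h3 : Zv w d = Zv w' d) : w = w' := by
  have two : (2 : ZMod q) ≠ 0 := by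
    intro h
    have h4 : ((2 : ℕ) : ZMod q) = 0 := by exact_mod_cast h
    rw [ZMod.natCast_eq_zero_iff] at h4
    have := Nat.le_of_dvd (by norm_num) h4
    omega
  have three : (3 : ZMod q) ≠ 0 := by
    intro h
    have h4 : ((3 : ℕ) : ZMod q) = 0 := by exact_mod_cast h
    rw [ZMod.natCast_eq_zero_iff] at h4
    have := Nat.le_of_dvd (by norm_num) h4
    omega
  simp only [Zv] at h1 h2 h3
  have e1 : (b - c) * (2 * (w 1 - w' 1) + 3 * (b + c) * (w 2 - w' 2)) = 0 := by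
    linear_combination h1 - h2
  have e2 : (b - d) * (2 * (w 1 - w' 1) + 3 * (b + d) * (w 2 - w' 2)) = 0 := by
    linear_combination h1 - h3
  have f1 := (mul_eq_zero.mp e1).resolve_left (sub_ne_zero.mpr hbc)
  have f2 := (mul_eq_zero.mp e2).resolve_left (sub_ne_zero.mpr hbd)
  have e3 : 3 * ((c - d) * (w 2 - w' 2)) = 0 := by linear_combination f1 - f2
  have f3 := (mul_eq_zero.mp ((mul_eq_zero.mp e3).resolve_left three)).resolve_left
    (sub_ne_zero.mpr hcd)
  have e4 : 2 * (w 1 - w' 1) = 0 := by linear_combination f1 - 3 * (b + c) * f3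
  have f4 := (mul_eq_zero.mp e4).resolve_left two
  have f5 : w 0 = w' 0 := by linear_combination h1 - 2 * b * f4 - 3 * b ^ 2 * f3
  funext i
  fin_cases i
  · exact f5
  · exact sub_eq_zero.mp f4
  · exact sub_eq_zero.mp f3

theorem triples {α : Type} [Fintype α] [DecidableEq α] (D : Finset α)
    (Q : α × α × α → Prop) [DecidablePred Q]
    (h : ∀ a ∈ D, ∀ b ∈ D, ∀ c ∈ D, a ≠ b → a ≠ c → b ≠ c → Q (a, b, c)) :
    D.card.descFactorial 3 ≤ ((univ : Finset (α × α × α)).filter Q).card := by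
  have h1 : Fintype.card (Fin 3 ↪ D) = D.card.descFactorial 3 := by
    rw [Fintype.card_embedding_eq, Fintype.card_coe, Fintype.card_fin]
  rw [← h1, ← Finset.card_univ]
  refine Finset.card_le_card_of_injOn (fun f : Fin 3 ↪ D =>
    (((f 0 : D) : α), ((f 1 : D) : α), ((f 2 : D) : α))) ?_ ?_
  · intro f _
    have hne : ∀ i j : Fin 3, i ≠ j → ((f i : D) : α) ≠ ((f j : D) : α) := by
      intro i j hij h2
      exact hij (f.injective (Subtype.ext h2))
    rw [mem_coe, mem_filter]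
    exact ⟨mem_univ _, h _ (f 0).2 _ (f 1).2 _ (f 2).2 (hne 0 1 (by decide))
      (hne 0 2 (by decide)) (hne 1 2 (by decide))⟩
  · intro f _ g _ hfg
    simp only [Prod.mk.injEq] at hfg
    refine Function.Embedding.ext fun i => Subtype.ext ?_
    fin_cases i
    · exact hfg.1
    · exact hfg.2.1
    · exact hfg.2.2

theorem desc_lower (m : ℕ) (n : ℝ) (hn : 4 ≤ n) (hm : n ≤ (m : ℝ)) :
    3 / 8 * n ^ 3 ≤ ((m.descFactorial 3 : ℕ) : ℝ) := by
  have h4 : (4 : ℕ) ≤ m := by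
    have : (4 : ℝ) ≤ (m : ℝ) := hn.trans hm
    exact_mod_cast this
  obtain ⟨j, rfl⟩ := Nat.exists_eq_add_of_le h4
  have h1 : (4 + j).descFactorial 3 = (j + 2) * ((j + 3) * (j + 4)) := by
    simp only [Nat.descFactorial_succ, Nat.descFactorial_zero]
    have a1 : 4 + j - 2 = j + 2 := by omega
    have a2 : 4 + j - 1 = j + 3 := by omega
    have a3 : 4 + j - 0 = j + 4 := by omega
    rw [a1, a2, a3, mul_one]
  rw [h1]
  push_cast at hm ⊢
  have hj : (0 : ℝ) ≤ j := Nat.cast_nonneg j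
  have h2 : n ^ 3 ≤ (4 + (j : ℝ)) ^ 3 := pow_le_pow_left₀ (by linarith) hm 3
  have h3 : 3 / 8 * (4 + (j : ℝ)) ^ 3 ≤ (j + 2) * ((j + 3) * (j + 4)) := by
    nlinarith [mul_nonneg hj hj, mul_nonneg (mul_nonneg hj hj) hj]
  linarith

/-- Vectors with many good positions are rare. -/
theorem count {q : ℕ} [Fact q.Prime] (hq : 3 < q) (Y : Finset (V3 q))
    (V : ZMod q → Finset (ZMod q)) (B n : ℝ) (hV : ∀ b, ((V b).card : ℝ) ≤ B) (hn : 4 ≤ n)
    (hY : ∀ w ∈ Y, ∃ D : Finset (ZMod q), n ≤ (D.card : ℝ) ∧ ∀ b ∈ D, Zv w b ∈ V b) :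
    (Y.card : ℝ) ≤ 8 / 3 * (q * B / n) ^ 3 := by
  classical
  let G : V3 q → ZMod q × ZMod q × ZMod q → Prop := fun w τ =>
    (τ.1 ≠ τ.2.1 ∧ τ.1 ≠ τ.2.2 ∧ τ.2.1 ≠ τ.2.2) ∧
      (Zv w τ.1 ∈ V τ.1 ∧ Zv w τ.2.1 ∈ V τ.2.1 ∧ Zv w τ.2.2 ∈ V τ.2.2)
  have hB : 0 ≤ B := le_trans (Nat.cast_nonneg _) (hV 0)
  have hlow : ∀ w ∈ Y, 3 / 8 * n ^ 3 ≤
      (((univ : Finset (ZMod q × ZMod q × ZMod q)).bipartiteAbove G w).card : ℝ) := by
    intro w hw
    obtain ⟨D, hD, hDV⟩ := hY w hw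
    refine (desc_lower D.card n hn hD).trans ?_
    exact_mod_cast triples D (G w) (fun a ha b hb c hc hab hac hbc =>
      ⟨⟨hab, hac, hbc⟩, hDV a ha, hDV b hb, hDV c hc⟩)
  have hup : ∀ τ : ZMod q × ZMod q × ZMod q, ((Y.bipartiteBelow G τ).card : ℝ) ≤ B ^ 3 := by
    rintro ⟨b, c, d⟩
    by_cases hd : b ≠ c ∧ b ≠ d ∧ c ≠ d
    · have h1 : (Y.bipartiteBelow G (b, c, d)).card ≤ (V b ×ˢ V c ×ˢ V d).card := by
        refine Finset.card_le_card_of_injOn (fun w => (Zv w b, Zv w c, Zv w d)) ?_ ?_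
        · intro w hw
          rw [mem_coe, Finset.mem_bipartiteBelow] at hw
          rw [mem_coe, mem_product, mem_product]
          exact hw.2.2
        · intro w _ w' _ hww
          simp only [Prod.mk.injEq] at hww
          exact Zv_inj hq w w' b c d hd.1 hd.2.1 hd.2.2 hww.1 hww.2.1 hww.2.2
      have h2 : ((Y.bipartiteBelow G (b, c, d)).card : ℝ) ≤
          (V b).card * ((V c).card * (V d).card) := by
        rw [card_product, card_product] at h1
        exact_mod_cast h1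
      refine h2.trans ?_
      have h3 : ((V c).card : ℝ) * (V d).card ≤ B * B :=
        mul_le_mul (hV c) (hV d) (Nat.cast_nonneg _) hB
      have h4 : ((V b).card : ℝ) * ((V c).card * (V d).card) ≤ B * (B * B) :=
        mul_le_mul (hV b) h3 (by positivity) hB
      linarith [h4, show B * (B * B) = B ^ 3 by ring]
    · have h1 : Y.bipartiteBelow G (b, c, d) = ∅ := by
        rw [Finset.eq_empty_iff_forall_notMem]
        intro w hw
        rw [Finset.mem_bipartiteBelow] at hw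
        exact hd hw.2.1
      rw [h1, card_empty, Nat.cast_zero]
      positivity
  have hsum : ∑ w ∈ Y, (((univ : Finset (ZMod q × ZMod q × ZMod q)).bipartiteAbove G w).card : ℝ) =
      ∑ τ : ZMod q × ZMod q × ZMod q, ((Y.bipartiteBelow G τ).card : ℝ) := by
    exact_mod_cast Finset.sum_card_bipartiteAbove_eq_sum_card_bipartiteBelow (s := Y)
      (t := (univ : Finset (ZMod q × ZMod q × ZMod q))) G
  have h1 : (Y.card : ℝ) * (3 / 8 * n ^ 3) ≤ (q : ℝ) ^ 3 * B ^ 3 := by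
    calc (Y.card : ℝ) * (3 / 8 * n ^ 3) = ∑ w ∈ Y, (3 / 8 * n ^ 3) := by
          rw [sum_const, nsmul_eq_mul]
      _ ≤ ∑ w ∈ Y, (((univ : Finset (ZMod q × ZMod q × ZMod q)).bipartiteAbove G w).card : ℝ) :=
          sum_le_sum hlow
      _ = ∑ τ : ZMod q × ZMod q × ZMod q, ((Y.bipartiteBelow G τ).card : ℝ) := hsum
      _ ≤ ∑ τ : ZMod q × ZMod q × ZMod q, B ^ 3 := sum_le_sum fun τ _ => hup τ
      _ = (q : ℝ) ^ 3 * B ^ 3 := by
          rw [sum_const, nsmul_eq_mul, Finset.card_univ, Fintype.card_prod, Fintype.card_prod,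
            ZMod.card]
          push_cast
          ring
  have hn0 : 0 < n := by linarith
  have h2 : 8 / 3 * (q * B / n) ^ 3 = (q : ℝ) ^ 3 * B ^ 3 / (3 / 8 * n ^ 3) := by
    field_simp
  rw [h2, le_div_iff₀ (by positivity)]
  exact h1

theorem pf_O0 : T_O0 := by
  classical
  intro q _ hq A0 A1 kap n F E R S hO hn
  have hn0 : 0 < n := by linarith
  have hE0 : 0 ≤ E := le_trans zero_le_one hO.hE
  have hR0 : 0 ≤ R := le_trans zero_le_one hO.hR
  have hF0 : 0 ≤ F := le_trans zero_le_one hO.hF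
  -- the number of `w3`
  have hw3 : ((A0.image fun w => w.1).card : ℝ) ≤ 8 / 3 * (q * R / n) ^ 3 := by
    refine count hq _ (fun b => (univ : Finset (ZMod q)).filter fun r => ∃ s t, (r, s, t) ∈ A1 b)
      R n ?_ hn ?_
    · intro b
      exact hO.h3 b _ fun r hr => (mem_filter.mp hr).2
    · intro w3 h3
      obtain ⟨w, hw, rfl⟩ := mem_image.mp h3
      obtain ⟨D, hD, hDA⟩ := hO.h0 w hw
      exact ⟨D, hD, fun b hb => mem_filter.mpr ⟨mem_univ _, _, _, hDA b hb⟩⟩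
  -- the number of `w2`
  have hw2 : ∀ w3 : V3 q, ((((A0.filter fun w => w.1 = w3).image fun w => w.2.1).card : ℕ) : ℝ) ≤
      8 / 3 * (q * E / n) ^ 3 := by
    intro w3
    refine count hq _ (fun b => ((univ : Finset (ZMod q)).filter
      fun t => (Zv w3 b, Zw w3 b, t) ∈ A1 b).image fun t => t - kap b w3) E n ?_ hn ?_
    · intro b
      refine le_trans ?_ (hO.h2 b (Zv w3 b) (Zw w3 b) ((univ : Finset (ZMod q)).filter
        fun t => (Zv w3 b, Zw w3 b, t) ∈ A1 b) fun t ht => (mem_filter.mp ht).2)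
      exact_mod_cast card_image_le
    · intro w2 h2
      obtain ⟨w, hw, rfl⟩ := mem_image.mp h2
      obtain ⟨hwA, rfl⟩ := mem_filter.mp hw
      obtain ⟨D, hD, hDA⟩ := hO.h0 w hwA
      refine ⟨D, hD, fun b hb => mem_image.mpr ⟨Zv w.2.1 b + kap b w.1, ?_, by ring⟩⟩
      exact mem_filter.mpr ⟨mem_univ _, hDA b hb⟩
  -- the number of `w1`
  have hw1 : ∀ w3 w2 : V3 q, ((((A0.filter fun w => w.1 = w3).filter
      fun w => w.2.1 = w2).card : ℕ) : ℝ) ≤ F := by
    intro w3 w2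
    have h1 : ((A0.filter fun w => w.1 = w3).filter fun w => w.2.1 = w2).card =
        (((A0.filter fun w => w.1 = w3).filter fun w => w.2.1 = w2).image fun w => w.2.2).card := by
      rw [card_image_of_injOn]
      rintro ⟨a1, a2, a3⟩ ha ⟨b1, b2, b3⟩ hb hab
      rw [mem_coe, mem_filter, mem_filter] at ha hb
      simp only at ha hb hab
      rw [ha.1.2, ha.2, hb.1.2, hb.2, hab]
    rw [h1]
    refine hO.h1 w3 w2 _ fun w1 hw => ?_
    obtain ⟨⟨a1, a2, a3⟩, ha, rfl⟩ := mem_image.mp hw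
    rw [mem_filter, mem_filter] at ha
    obtain ⟨⟨h2, rfl⟩, rfl⟩ := ha
    exact h2
  have hfib : ∀ w3 : V3 q, (((A0.filter fun w => w.1 = w3).card : ℕ) : ℝ) ≤
      8 / 3 * (q * E / n) ^ 3 * F := by
    intro w3
    have h1 := Finset.card_eq_sum_card_image (fun w : V3 q × V3 q × V3 q => w.2.1)
      (A0.filter fun w => w.1 = w3)
    rw [h1]
    push_cast
    calc ∑ w2 ∈ (A0.filter fun w => w.1 = w3).image fun w => w.2.1,
          ((((A0.filter fun w => w.1 = w3).filter fun w => w.2.1 = w2).card : ℕ) : ℝ)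
        ≤ ∑ _w2 ∈ (A0.filter fun w => w.1 = w3).image fun w => w.2.1, F :=
          sum_le_sum fun w2 _ => hw1 w3 w2
      _ = ((((A0.filter fun w => w.1 = w3).image fun w => w.2.1).card : ℕ) : ℝ) * F := by
          rw [sum_const, nsmul_eq_mul]
      _ ≤ 8 / 3 * (q * E / n) ^ 3 * F := mul_le_mul_of_nonneg_right (hw2 w3) hF0
  have h1 := Finset.card_eq_sum_card_image (fun w : V3 q × V3 q × V3 q => w.1) A0
  have hx : (0 : ℝ) ≤ (q * E / n) ^ 3 := by positivity
  have hy : (0 : ℝ) ≤ (q * R / n) ^ 3 := by positivity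
  calc (A0.card : ℝ) = ∑ w3 ∈ A0.image fun w => w.1,
        (((A0.filter fun w => w.1 = w3).card : ℕ) : ℝ) := by
        rw [h1]
        push_cast
        rfl
    _ ≤ ∑ _w3 ∈ A0.image fun w => w.1, 8 / 3 * (q * E / n) ^ 3 * F :=
        sum_le_sum fun w3 _ => hfib w3
    _ = ((A0.image fun w => w.1).card : ℝ) * (8 / 3 * (q * E / n) ^ 3 * F) := by
        rw [sum_const, nsmul_eq_mul]
    _ ≤ 8 / 3 * (q * R / n) ^ 3 * (8 / 3 * (q * E / n) ^ 3 * F) :=
        mul_le_mul_of_nonneg_right hw3 (by positivity)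
    _ ≤ 64 * F * (q * E / n) ^ 3 * (q * R / n) ^ 3 := by
        have h5 : 0 ≤ F * (q * E / n) ^ 3 * (q * R / n) ^ 3 := by positivity
        nlinarith [h5]

end Pool.Agent.H36.CLV
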